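import Pool.Agent.N818.IL.Stm
import Pool.Agent.Helper919.NonRes

/-!
# Project IL (helper818), part CHI: the quadratic symbols modulo `M`
-/

set_option autoImplicit false

namespace Pool.Agent.N271.IL

open Finset

theorem even_of {M : ℕ} {d : ℤ} (h4 : (4 * d) ∣ (M : ℤ)) : Even M := by
  have h : (2 : ℤ) ∣ (M : ℤ) := Dvd.dvd.trans ⟨2 * d, by ring⟩ h4
  have h2 : (2 : ℕ) ∣ M := by exact_mod_cast h
  exact even_iff_two_dvd.2 h2

theorem jac_mod {M : ℕ} {d : ℤ} (h4 : (4 * d) ∣ (M : ℤ)) {a : ℕ} (ha : Odd a) :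
    jacobiSym d (a % M) = jacobiSym d a := by
  have h5 : 4 * d.natAbs ∣ M := by
    have h := Int.natAbs_dvd_natAbs.2 h4
    rw [Int.natAbs_mul, Int.natAbs_natCast] at h
    exact h
  have hodd : Odd (a % M) := ha.mod_even (even_of h4)
  rw [jacobiSym.mod_right d ha, jacobiSym.mod_right d hodd, Nat.mod_mod_of_dvd _ h5]

theorem not_square_mul (n M : ℤ) (hM : M ≠ 0) (hn : ¬ IsSquare n) : ¬ IsSquare (n * M ^ 2) := by
  rintro ⟨k, hk⟩
  have h1 : M ^ 2 ∣ k ^ 2 := ⟨n, by rw [pow_two k, ← hk]; ring⟩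
  have h2 : M ∣ k := (Int.pow_dvd_pow_iff (by norm_num)).1 h1
  obtain ⟨j, rfl⟩ := h2
  apply hn
  refine ⟨j, ?_⟩
  have h3 : M ^ 2 ≠ 0 := pow_ne_zero 2 hM
  apply mul_right_cancel₀ h3
  rw [hk]; ring

theorem exists_neg (M : ℕ) (n : ℤ) (hM : 0 < M) (hn : ¬ IsSquare n) :
    ∃ b : ℕ, Odd b ∧ Nat.Coprime b M ∧ jacobiSym n b = -1 := by
  have hM' : (M : ℤ) ≠ 0 := by exact_mod_cast hM.ne'
  obtain ⟨b, hb, hj⟩ := Pool.Agent.Helper919.exists_jacobi_neg_one (n * (M : ℤ) ^ 2)
    (not_square_mul n M hM' hn)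
  rw [jacobiSym.mul_left, jacobiSym.pow_left] at hj
  have h0 : jacobiSym (M : ℤ) b ≠ 0 := by
    intro h
    rw [h] at hj
    norm_num at hj
  have hg : (M : ℤ).gcd b = 1 := by
    by_contra h
    apply h0
    exact jacobiSym.eq_zero_iff.2 ⟨by rintro rfl; exact absurd hb (by decide), h⟩
  refine ⟨b, hb, ?_, ?_⟩
  · have h1 : Nat.gcd M b = 1 := by
      rw [Int.gcd_natCast_natCast] at hg
      exact hg
    exact Nat.Coprime.symm h1
  · rw [jacobiSym.sq_one hg, mul_one] at hj
    exact hj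

theorem t_CHI : Pool.Agent.N818.IL.S_CHI := by
  intro M d hd hM h4
  refine ⟨?_, ?_⟩
  · intro p hp hpM
    have hev := even_of h4
    have hp2 : p ≠ 2 := by
      rintro rfl
      exact hpM (even_iff_two_dvd.1 hev)
    have hodd : Odd p := hp.odd_of_ne_two hp2
    have : Fact p.Prime := ⟨hp⟩
    rw [jac_mod h4 hodd, ← jacobiSym.legendreSym.to_jacobiSym, legendreSym.eq_neg_one_iff]
  · intro d' hd' h4' hsq
    obtain ⟨b, hb, hbM, hj⟩ := exists_neg M (d * d') hM hsq
    rw [jacobiSym.mul_left] at hj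
    have hev := even_of h4
    have hodd : ∀ a : ℕ, Nat.Coprime a M → Odd a := by
      intro a ha
      rcases Nat.even_or_odd a with h | h
      · exfalso
        have h2 : 2 ∣ Nat.gcd a M := Nat.dvd_gcd (even_iff_two_dvd.1 h) (even_iff_two_dvd.1 hev)
        rw [ha] at h2
        omega
      · exact h
    have hmaps : ∀ a ∈ (range M).filter (fun a => Nat.Coprime a M),
        (a * b) % M ∈ (range M).filter (fun a => Nat.Coprime a M) := by
      intro a ha
      rw [mem_filter, mem_range] at ha ⊢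
      refine ⟨Nat.mod_lt _ hM, ?_⟩
      have h1 : Nat.Coprime (a * b) M := Nat.Coprime.mul_left ha.2 hbM
      show Nat.gcd (a * b % M) M = 1
      rw [← Nat.gcd_rec, Nat.gcd_comm]
      exact h1
    have hinj : Set.InjOn (fun a => (a * b) % M)
        ((range M).filter (fun a => Nat.Coprime a M) : Finset ℕ) := by
      intro a ha c hc hac
      rw [Finset.mem_coe, mem_filter, mem_range] at ha hc
      have h1 : a * b ≡ c * b [MOD M] := hac
      have h2 : a ≡ c [MOD M] := Nat.ModEq.cancel_right_of_coprime (Nat.Coprime.symm hbM) h1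
      have h3 : a % M = c % M := h2
      rwa [Nat.mod_eq_of_lt ha.1, Nat.mod_eq_of_lt hc.1] at h3
    have hsurj : Set.SurjOn (fun a => (a * b) % M)
        ((range M).filter (fun a => Nat.Coprime a M) : Finset ℕ)
        ((range M).filter (fun a => Nat.Coprime a M) : Finset ℕ) :=
      Finset.surjOn_of_injOn_of_card_le _ (fun a ha => hmaps a ha) hinj le_rfl
    have hkey : ∀ a ∈ (range M).filter (fun a => Nat.Coprime a M),
        jacobiSym d ((a * b) % M) * jacobiSym d' ((a * b) % M) =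
          - (jacobiSym d a * jacobiSym d' a) := by
      intro a ha
      rw [mem_filter, mem_range] at ha
      have hao := hodd a ha.2
      have ha0 : a ≠ 0 := by rintro rfl; exact absurd hao (by decide)
      have hb0 : b ≠ 0 := by rintro rfl; exact absurd hb (by decide)
      rw [jac_mod h4 (hao.mul hb), jac_mod h4' (hao.mul hb), jacobiSym.mul_right' _ ha0 hb0,
        jacobiSym.mul_right' _ ha0 hb0]
      calc jacobiSym d a * jacobiSym d b * (jacobiSym d' a * jacobiSym d' b)
          = (jacobiSym d b * jacobiSym d' b) * (jacobiSym d a * jacobiSym d' a) := by ring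
        _ = _ := by rw [hj]; ring
    have hsum : ∑ a ∈ (range M).filter (fun a => Nat.Coprime a M),
        (- (jacobiSym d a * jacobiSym d' a)) =
        ∑ a ∈ (range M).filter (fun a => Nat.Coprime a M), jacobiSym d a * jacobiSym d' a :=
      Finset.sum_nbij (fun a => (a * b) % M) hmaps hinj hsurj (fun a ha => (hkey a ha).symm)
    rw [Finset.sum_neg_distrib] at hsum
    linarith

end Pool.Agent.N271.IL
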